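import Mathlib

namespace Pool.Agent.H.MP_c6e1d2_co

open Finset Matrix

variable {ι : Type} [Fintype ι] [DecidableEq ι]

def cj (U : Matrix ι ι ℝ) (d : ι → ℝ) : Matrix ι ι ℝ := U * diagonal d * Uᵀ

variable {U : Matrix ι ι ℝ}

theorem cj_mul (hU : Uᵀ * U = 1) (a b : ι → ℝ) : cj U a * cj U b = cj U fun i => a i * b i := by
  simp only [cj, ← diagonal_mul_diagonal, Matrix.mul_assoc]
  rw [← Matrix.mul_assoc Uᵀ, hU, Matrix.one_mul]

theorem cj_tr (hU : Uᵀ * U = 1) (a : ι → ℝ) : (cj U a).trace = ∑ i, a i := by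
  rw [cj, trace_mul_cycle, hU, Matrix.one_mul, trace_diagonal]

theorem cj_psd {a : ι → ℝ} (h : ∀ i, 0 ≤ a i) : (cj U a).PosSemidef :=
  (PosSemidef.diagonal h).mul_mul_conjTranspose_same U

theorem cj_add (a b : ι → ℝ) (c : ℝ) : cj U a + c • cj U b = cj U fun i => a i + c * b i := by
  rw [cj, cj, cj, ← Matrix.smul_mul, ← Matrix.mul_smul, ← Matrix.add_mul, ← Matrix.mul_add,
    ← diagonal_smul, diagonal_add]
  rfl

theorem cj_one (hU : Uᵀ * U = 1) : cj U (fun _ => 1) = 1 := by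
  rw [cj, diagonal_one, Matrix.mul_one, mul_eq_one_comm.1 hU]

theorem spec {N : Matrix ι ι ℝ} (h : N.PosSemidef) : ∃ (U : Matrix ι ι ℝ) (b : ι → ℝ),
    Uᵀ * U = 1 ∧ (∀ i, 0 ≤ b i) ∧ N = cj U b ∧ N.det = ∏ i, b i :=
  ⟨h.1.eigenvectorUnitary, h.1.eigenvalues, h.1.eigenvectorUnitary.2.1, h.eigenvalues_nonneg,
    h.1.spectral_theorem, h.1.det_eq_prod_eigenvalues⟩

structure St (G : Matrix ι ι ℝ) (S : Finset ι) (l φ : ℝ) (N : Matrix ι ι ℝ) : Prop where
  psd : N.PosSemidef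
  supp : ∀ i ∉ S, ∀ k, N i k = 0
  inv : ∀ i ∈ S, ∀ k, ((G - l • (1 : Matrix ι ι ℝ)) * N) i k = (1 : Matrix ι ι ℝ) i k
  tr : N.trace ≤ φ

variable {G N : Matrix ι ι ℝ} {S : Finset ι} {l φ δ : ℝ}

omit [DecidableEq ι] in
theorem ineq {b : ι → ℝ} (hb : ∀ i, 0 ≤ b i) (h0 : 0 < δ) (h1 : δ * ∑ i, b i < 1) {a : ι → ℝ}
    (ha : ∀ i, 0 ≤ a i) (e : ∀ i, a i = b i + δ * (b i * a i)) :
    (∑ i, a i - ∑ i, b i) * ∑ i, a i ≤ ∑ i, a i * a i := by
  have e1 : ∑ i, a i = ∑ i, b i + δ * ∑ i, b i * a i := by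
    rw [mul_sum, ← sum_add_distrib]
    exact sum_congr rfl fun i _ => e i
  have e2 : ∑ i, a i * a i = ∑ i, b i * a i + δ * ∑ i, b i * a i * a i := by
    rw [mul_sum, ← sum_add_distrib]
    exact sum_congr rfl fun i _ => by nth_rw 1 [e i]; ring
  have cs := sum_sq_le_sum_mul_sum_of_sq_le_mul univ (r := fun i => b i * a i) (f := b)
    (g := fun i => b i * a i * a i) (fun i _ => hb i)
    (fun i _ => by have := hb i; have := ha i; positivity) fun i _ => le_of_eq (by ring)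
  have p1 : 0 ≤ ∑ i, b i * a i := sum_nonneg fun i _ => mul_nonneg (hb i) (ha i)
  have p2 : 0 ≤ ∑ i, b i * a i * a i := sum_nonneg fun i _ => by
    have := hb i; have := ha i; positivity
  rw [e2, e1]
  nlinarith [mul_le_mul_of_nonneg_left cs (mul_pos h0 h0).le, mul_nonneg p1 (sub_pos.2 h1).le,
    mul_nonneg (mul_nonneg h0.le p2) (sub_pos.2 h1).le]

theorem St.step (h : St G S l φ N) (h0 : 0 < δ) (h1 : δ * φ < 1) (hS : S.Nonempty) :
    ∃ j ∈ S, ∃ N', St G (S.erase j) (l + δ) φ N' := by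
  obtain ⟨U, b, hU, hb, e, -⟩ := spec h.psd
  have t := h.tr
  rw [e, cj_tr hU] at t
  have t1 : δ * ∑ i, b i < 1 := by nlinarith
  have p : ∀ i, 0 < 1 - δ * b i := fun i => by
    nlinarith [single_le_sum (fun i _ => hb i) (mem_univ i)]
  let a : ι → ℝ := fun i => b i / (1 - δ * b i)
  have ha : ∀ i, 0 ≤ a i := fun i => div_nonneg (hb i) (p i).le
  have ea : ∀ i, a i = b i + δ * (b i * a i) := fun i => by
    have := div_mul_cancel₀ (b i) (p i).ne'
    simp only [a]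
    linarith
  set R := cj U a with hR
  have Rp : R.PosSemidef := cj_psd ha
  have sy : ∀ i k, R i k = R k i := fun i k => by simpa using Rp.1.apply k i
  have eR : R = N + δ • (N * R) := by
    rw [e, hR, cj_mul hU, cj_add]
    exact congrArg _ (funext ea)
  have s1 : ∀ i ∉ S, ∀ k, R i k = 0 := fun i hi k => by
    rw [eR]
    simp [mul_apply, h.supp i hi]
  have i1 : ∀ i ∈ S, ∀ k, ((G - (l + δ) • (1 : Matrix ι ι ℝ)) * R) i k = (1 : Matrix ι ι ℝ) i k :=
    fun i hi k => by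
      have : (G - (l + δ) • (1 : Matrix ι ι ℝ)) * R = (G - l • (1 : Matrix ι ι ℝ)) * N +
          δ • ((G - l • (1 : Matrix ι ι ℝ)) * N * R) - δ • R := by
        rw [Matrix.mul_assoc, ← Matrix.mul_smul, ← Matrix.mul_add, ← eR, add_smul, ← sub_sub,
          Matrix.sub_mul, Matrix.smul_mul, Matrix.one_mul]
      rw [this, Matrix.sub_apply, Matrix.add_apply, Matrix.smul_apply, h.inv i hi, mul_apply]
      simp [h.inv i hi, one_apply]
  obtain ⟨j, hj, c⟩ := exists_le_of_sum_le hS (f := fun j => (R.trace - N.trace) * R j j)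
    (g := fun j => (R * R) j j) (by
      rw [← mul_sum, sum_subset (subset_univ S) fun i _ hi => s1 i hi i,
        sum_subset (subset_univ S) fun i _ hi => by simp [mul_apply, s1 i hi]]
      change _ * R.trace ≤ (R * R).trace
      rw [e, hR, cj_mul hU, cj_tr hU, cj_tr hU, cj_tr hU]
      exact ineq hb h0 t1 ha ea)
  have q : 0 < R j j := Rp.diag_nonneg.lt_of_ne' fun z => by
    have := (Rp.dotProduct_mulVec_zero_iff (Pi.single j 1)).1 (by simpa using z)
    have z : ∀ k, R k j = 0 := fun k => by simpa using congrFun this k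
    simpa [mul_apply, z] using i1 j hj j
  refine ⟨j, hj, R - (R j j)⁻¹ • vecMulVec (R · j) (R · j), .of_dotProduct_mulVec_nonneg
    (by ext i k; simp [vecMulVec_apply, sy i k, mul_comm]) fun x => ?_, fun i hi k => ?_,
    fun i hi k => ?_, ?_⟩
  · have := Rp.dotProduct_mulVec_nonneg (x - ((x ⬝ᵥ (R · j)) / R j j) • Pi.single j 1)
    have u : (R *ᵥ x) j = x ⬝ᵥ (R · j) := by simp [mulVec, dotProduct, sy j, mul_comm]
    have u' : R *ᵥ Pi.single j 1 = (R · j) := by ext; simp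
    simp only [star_trivial, mulVec_sub, mulVec_smul, u', sub_dotProduct, dotProduct_sub,
      smul_dotProduct, dotProduct_smul, single_dotProduct, one_mul, u, smul_eq_mul, sub_mulVec,
      smul_mulVec, vecMulVec_mulVec, dotProduct_comm _ x, op_smul_eq_smul] at this ⊢
    convert this using 1
    field_simp
    ring
  · by_cases m : i = j
    · simp [vecMulVec_apply, m, q.ne', sy k]
    · simp [vecMulVec_apply, s1 i fun c => hi (mem_erase.2 ⟨m, c⟩)]
  · obtain ⟨m, hi⟩ := mem_erase.1 hi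
    have := i1 i hi j
    rw [Matrix.mul_sub, Matrix.mul_smul, mul_vecMulVec, Matrix.sub_apply, i1 i hi,
      Matrix.smul_apply, vecMulVec_apply, show ((G - (l + δ) • (1 : Matrix ι ι ℝ)) *ᵥ (R · j)) i = _ from this,
      one_apply_ne m]
    simp
  · have : (vecMulVec (R · j) (R · j)).trace = (R * R) j j := by
      simp [trace_vecMulVec, mul_apply, dotProduct, sy j]
    rw [trace_sub, trace_smul, this, smul_eq_mul]
    have := (le_inv_mul_iff₀ q).2 (mul_comm (R j j) _ ▸ c)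
    linarith [h.tr]

theorem St.iter (h : St G S l φ N) (h0 : 0 < δ) (h1 : δ * φ < 1) (m : ℕ) : m ≤ S.card →
    ∃ S' N', S'.card + m = S.card ∧ St G S' (l + m * δ) φ N' := by
  induction m with
  | zero => exact fun _ => ⟨S, N, rfl, by simpa using h⟩
  | succ m ih =>
    intro hm
    obtain ⟨S', N', a, b⟩ := ih (by omega)
    obtain ⟨j, hj, N'', c⟩ := b.step h0 h1 (card_pos.1 (by omega))
    refine ⟨S'.erase j, N'', by have := card_erase_add_one hj; omega, ?_⟩
    rwa [Nat.cast_succ, add_mul, one_mul, ← add_assoc]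

theorem St.form (h : St G S l φ N) (hG : Gᵀ = G) {x : ι → ℝ} (hx : ∀ i ∉ S, x i = 0) :
    l * x ⬝ᵥ x ≤ x ⬝ᵥ G *ᵥ x := by
  have sy : Nᵀ = N := h.psd.1
  have e : N *ᵥ ((G - l • (1 : Matrix ι ι ℝ)) *ᵥ x) = x := by
    have : N * (G - l • (1 : Matrix ι ι ℝ)) = ((G - l • (1 : Matrix ι ι ℝ)) * N)ᵀ := by
      simp [sy, hG]
    ext k
    rw [mulVec_mulVec, this, mulVec, dotProduct, sum_congr rfl (g := fun i => (1 : Matrix ι ι ℝ) i k * x i)
      fun i _ => by
        by_cases m : i ∈ S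
        · rw [transpose_apply, h.inv i m]
        · simp [hx i m]]
    simp [one_apply]
  have := h.psd.dotProduct_mulVec_nonneg ((G - l • (1 : Matrix ι ι ℝ)) *ᵥ x)
  rw [e, star_trivial, dotProduct_comm] at this
  simpa [sub_mulVec, smul_mulVec] using this

theorem ri (hU : Uᵀ * U = 1) {μ : ι → ℝ} (hμ : ∀ i, 0 ≤ μ i) {x : ℝ} (hx : 0 < x) {t s : ℕ}
    (ht : t = (univ.filter fun i => x ≤ μ i).card) (t0 : 0 < t) (hs : 4 * s ≤ t) :
    ∃ S : Finset ι, S.card = s ∧ ∀ y : ι → ℝ, (∀ i ∉ S, y i = 0) →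
      x * t / (8 * Fintype.card ι) * y ⬝ᵥ y ≤ y ⬝ᵥ cj U μ *ᵥ y := by
  have tk : t ≤ Fintype.card ι := ht ▸ card_le_univ _
  have p : ∀ i, 0 < μ i + x := fun i => by linarith [hμ i]
  have h : St (cj U μ) univ (-x) ((Fintype.card ι - t / 2) / x) (cj U fun i => (μ i + x)⁻¹) := by
    refine ⟨cj_psd fun i => (inv_pos.2 (p i)).le, by simp, fun i _ k => ?_, ?_⟩
    · rw [neg_smul, sub_neg_eq_add, ← cj_one hU, cj_add, cj_mul hU]
      simp [(p _).ne']
    · rw [cj_tr hU, le_div_iff₀ hx, sum_mul, ht, card_filter]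
      push_cast
      rw [sum_div, ← card_univ, card_eq_sum_ones, Nat.cast_sum, ← sum_sub_distrib]
      refine sum_le_sum fun i _ => ?_
      rw [inv_mul_le_iff₀ (p i)]
      split_ifs <;> push_cast <;> linarith [hμ i]
  have tk' : (t : ℝ) ≤ Fintype.card ι := by exact_mod_cast tk
  have t0' : (0 : ℝ) < t := by exact_mod_cast t0
  have hs' : 4 * (s : ℝ) ≤ t := by exact_mod_cast hs
  have q : (0 : ℝ) < Fintype.card ι - 3 * t / 8 := by linarith
  obtain ⟨S, N, a, b⟩ := h.iter (div_pos hx q) (by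
    rw [div_mul_div_cancel₀' hx.ne', div_lt_one q]; linarith) (Fintype.card ι - s) (by simp)
  rw [card_univ] at a
  refine ⟨S, by omega, fun y hy => le_trans (mul_le_mul_of_nonneg_right ?_
    (sum_nonneg fun i _ => mul_self_nonneg _)) (b.form (cj_psd hμ).1 hy)⟩
  rw [Nat.cast_sub (by omega), mul_div_assoc', le_neg_add_iff_add_le, le_div_iff₀ q, add_mul,
    div_mul_eq_mul_div, mul_div_assoc (x * t)]
  have : ((Fintype.card ι : ℝ) - 3 * t / 8) / (8 * Fintype.card ι) ≤ 1 / 8 := by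
    rw [div_le_iff₀ (by linarith)]
    linarith
  nlinarith [mul_le_mul_of_nonneg_left this (mul_pos hx t0').le,
    mul_le_mul_of_nonneg_left hs' hx.le]

end Pool.Agent.H.MP_c6e1d2_co
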