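import Pool.Agent.H.MP_c6e1d2_co.A

namespace Pool.Agent.H.MP_c6e1d2_co

open Finset Matrix

variable {ι : Type} [Fintype ι] [DecidableEq ι]

omit [Fintype ι] in
theorem fact_le (f : ι → ℝ) (s : Finset ι) :
    s.card.factorial ≤ ∏ i ∈ s, (s.filter fun j => f i ≤ f j).card := by
  induction s using induction_on_min_value f with
  | empty => simp
  | insert a s ha hm ih =>
    rw [prod_insert ha, card_insert_of_notMem ha, Nat.factorial_succ, filter_true_of_mem
      (by simpa using hm), card_insert_of_notMem ha]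
    exact Nat.mul_le_mul_left _ (ih.trans (prod_le_prod' fun i _ =>
      card_le_card (filter_subset_filter _ (subset_insert _ _))))

theorem core (B : Matrix ι ι ℝ) {L : ℝ} (L0 : 0 ≤ L) (H : ∀ (S : Finset ι) (l : ℝ), 0 ≤ l →
    (∀ y : ι → ℝ, (∀ i ∉ S, y i = 0) → l * y ⬝ᵥ y ≤ (B *ᵥ y) ⬝ᵥ (B *ᵥ y)) →
      l * S.card ≤ 2 * Fintype.card ι * L ^ 2) : |B.det| ≤ (36 * L) ^ Fintype.card ι := by
  obtain ⟨U, μ, hU, hμ, e, d⟩ := spec (posSemidef_conjTranspose_mul_self B)
  have f : ∀ y : ι → ℝ, y ⬝ᵥ cj U μ *ᵥ y = (B *ᵥ y) ⬝ᵥ (B *ᵥ y) := fun y => by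
    rw [← e, ← mulVec_mulVec, dotProduct_mulVec, conjTranspose_eq_transpose_of_trivial,
      vecMul_transpose]
  set k : ℝ := ((Fintype.card ι : ℕ) : ℝ) with hk
  have k0 : 0 ≤ k := Nat.cast_nonneg _
  have tr : ∑ i, μ i ≤ k * (2 * k * L ^ 2) := by
    rw [← cj_tr hU, trace, hk, ← card_univ, ← nsmul_eq_mul]
    refine sum_le_card_nsmul _ _ _ fun j _ => ?_
    simpa using H {j} (cj U μ j j) (cj_psd hμ).diag_nonneg fun y hy => by
      rw [← f, show y = Pi.single j (y j) from funext fun i => by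
        by_cases c : i = j
        · simp [c]
        · simp [c, hy i (by simpa using c)]]
      simp [mul_assoc, mul_comm]
  have b : ∀ i, μ i * ((univ.filter fun j => μ i ≤ μ j).card : ℝ) ^ 2 ≤ (12 * k * L) ^ 2 := by
    intro i
    generalize ht : (univ.filter fun j => μ i ≤ μ j).card = t
    have m := hμ i
    by_cases c : t < 4
    · have : (t : ℝ) ^ 2 ≤ 9 := by exact_mod_cast (by nlinarith : t ^ 2 ≤ 9)
      nlinarith [single_le_sum (fun i _ => hμ i) (mem_univ i), sq_nonneg (k * L)]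
    rcases m.eq_or_lt with z | z
    · rw [← z, zero_mul]
      positivity
    obtain ⟨S, s1, s2⟩ := ri hU hμ z ht.symm (by omega) (Nat.mul_div_le t 4)
    have := H S _ (by positivity) fun y hy => f y ▸ s2 y hy
    have kp : 0 < k := Nat.cast_pos.2 (Fintype.card_pos_iff.2 ⟨i⟩)
    have t8 : (t : ℝ) ≤ 8 * S.card := by exact_mod_cast (by omega : t ≤ 8 * S.card)
    rw [div_mul_eq_mul_div, div_le_iff₀ (by positivity)] at this
    nlinarith [mul_le_mul_of_nonneg_left t8 (by positivity : 0 ≤ μ i * t), sq_nonneg (k * L)]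
  have p := prod_le_prod (s := univ) (fun i _ => mul_nonneg (hμ i) (sq_nonneg _)) fun i _ => b i
  have q : ((Fintype.card ι).factorial : ℝ) ≤ ∏ i, ((univ.filter fun j => μ i ≤ μ j).card : ℝ) := by
    exact_mod_cast fact_le μ univ
  rw [prod_mul_distrib, prod_pow, ← d, det_mul, det_conjTranspose, star_trivial, prod_const,
    card_univ, ← pow_mul, mul_comm 2, pow_mul, ← sq, ← sq_abs, ← mul_pow] at p
  have p := (abs_le_of_sq_le_sq' p (pow_nonneg (mul_nonneg (mul_nonneg (by norm_num) k0) L0) _)).2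
  have r := Real.pow_div_factorial_le_exp k k0 (Fintype.card ι)
  have f0 : (0 : ℝ) < (Fintype.card ι).factorial := by positivity
  have r' : Real.exp k ≤ 3 ^ Fintype.card ι := by
    rw [hk, ← Real.exp_one_pow]
    exact pow_le_pow_left₀ (Real.exp_pos 1).le Real.exp_one_lt_three.le _
  rw [div_le_iff₀ f0] at r
  refine le_of_mul_le_mul_right (((mul_le_mul_of_nonneg_left q (abs_nonneg _)).trans p).trans ?_) f0
  rw [show 12 * k * L = 12 * L * k by ring, show 36 * L = 12 * L * 3 by ring, mul_pow _ k,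
    mul_pow _ (3 : ℝ), mul_assoc]
  gcongr
  exact r.trans (mul_le_mul_of_nonneg_right r' f0.le)

end Pool.Agent.H.MP_c6e1d2_co
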